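import Pool.Agent.helper36.YB.Spec

/-!
# Project yb (MP_ad8ced_nt), row MBX: from the rough Moebius series to the full ones (port of MMB of BP by helper82)
-/

set_option autoImplicit false

open Finset
open Pool.Agent.FI Pool.Agent.HK Pool.Agent.BP
open Pool.Agent.CH (nit rgh ll2)
open Pool.Agent.SK (tr0 Th)

noncomputable section

namespace Pool.Agent.YB

/-- `(log n)^j ≤ C n^ε` -/
private theorem MBX_log_pow_le (j : ℕ) {ε : ℝ} (hε : 0 < ε) : ∃ C : ℝ, 0 < C ∧ ∀ n : ℕ, n ≠ 0 →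
    Real.log n ^ j ≤ C * (n : ℝ) ^ ε := by
  rcases Nat.eq_zero_or_pos j with rfl | hj
  · refine ⟨1, one_pos, fun n hn => ?_⟩
    rw [pow_zero, one_mul]
    exact Real.one_le_rpow (by exact_mod_cast Nat.one_le_iff_ne_zero.2 hn) hε.le
  · refine ⟨(j / ε) ^ j, by positivity, fun n _ => ?_⟩
    have h1 := Real.log_natCast_le_rpow_div n (show 0 < ε / j by positivity)
    have h2 : 0 ≤ Real.log n := Real.log_natCast_nonneg n
    calc Real.log n ^ j ≤ ((n : ℝ) ^ (ε / j) / (ε / j)) ^ j := pow_le_pow_left₀ h2 h1 j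
      _ = (j / ε) ^ j * (n : ℝ) ^ ε := by
        rw [div_pow, ← Real.rpow_natCast ((n : ℝ) ^ (ε / j)), ← Real.rpow_mul (by positivity)]
        have : ε / j * (j : ℝ) = ε := by field_simp
        rw [this, div_pow, div_pow]
        field_simp

private theorem MBX_summable_of_log {f : ℕ → ℂ} {j : ℕ} (hf : ∀ n : ℕ, ‖f n‖ ≤ Real.log n ^ j) {s : ℂ}
    (hs : 1 < s.re) : LSeriesSummable f s := by
  obtain ⟨C, hC, h⟩ := MBX_log_pow_le j (show 0 < (s.re - 1) / 2 by linarith)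
  refine LSeriesSummable_of_le_const_mul_rpow (x := (s.re + 1) / 2) (by linarith) ⟨C, fun n hn => ?_⟩
  refine (hf n).trans ((h n hn).trans (le_of_eq ?_))
  congr 2
  ring

/-- summability for coefficients in the unit disc -/
private theorem MBX_s1 (g : ℕ → ℂ) (hg : ∀ n, ‖g n‖ ≤ 1) (j : ℕ) {s : ℂ} (hs : 1 < s.re) :
    LSeriesSummable (fun n => g n * (Real.log n : ℂ) ^ j) s := by
  refine MBX_summable_of_log (j := j) (fun n => ?_) hs
  rw [norm_mul, norm_pow, Complex.norm_real, Real.norm_of_nonneg (Real.log_natCast_nonneg n)]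
  exact mul_le_of_le_one_left (pow_nonneg (Real.log_natCast_nonneg n) _) (hg n)

/-- the binomial theorem for the logarithms in a convolution -/
private theorem MBX_pt (F G : ℕ → ℂ) (j n : ℕ) (hn : n ≠ 0) :
    (∑ p ∈ n.divisorsAntidiagonal, F p.1 * G p.2) * (Real.log n : ℂ) ^ j =
      ∑ i ∈ range (j + 1), (Nat.choose j i : ℂ) * ∑ p ∈ n.divisorsAntidiagonal,
        (F p.1 * (Real.log p.1 : ℂ) ^ i) * (G p.2 * (Real.log p.2 : ℂ) ^ (j - i)) := by
  simp only [Finset.mul_sum]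
  rw [Finset.sum_comm, Finset.sum_mul]
  refine Finset.sum_congr rfl fun p hp => ?_
  rw [Nat.mem_divisorsAntidiagonal] at hp
  have hp1 : p.1 ≠ 0 := fun h => hn (by rw [← hp.1, h, zero_mul])
  have hp2 : p.2 ≠ 0 := fun h => hn (by rw [← hp.1, h, mul_zero])
  have hlog : (Real.log n : ℂ) = Real.log p.1 + Real.log p.2 := by
    rw [← hp.1]
    push_cast
    rw [Real.log_mul (by exact_mod_cast hp1) (by exact_mod_cast hp2)]
    push_cast
    ring
  rw [hlog, add_pow, Finset.mul_sum]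
  refine Finset.sum_congr rfl fun i _ => ?_
  ring

private theorem MBX_DF (F G : ℕ → ℂ) (s : ℂ) (hF : ∀ i : ℕ, LSeriesSummable (fun n => F n * (Real.log n : ℂ) ^ i) s)
    (hG : ∀ i : ℕ, LSeriesSummable (fun n => G n * (Real.log n : ℂ) ^ i) s) (j : ℕ) :
    LSeriesSummable (fun n => cv F G n * (Real.log n : ℂ) ^ j) s ∧
    DF (cv F G) j s = ∑ i ∈ range (j + 1), (Nat.choose j i : ℂ) * DF F i s * DF G (j - i) s := by
  have h1 : ∀ i, DF F i s * DF G (j - i) s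
      = LSeries (LSeries.convolution (fun n => F n * (Real.log n : ℂ) ^ i)
          (fun n => G n * (Real.log n : ℂ) ^ (j - i))) s := fun i =>
    (LSeries_convolution' (hF i) (hG (j - i))).symm
  have h2 : ∀ i, LSeriesSummable (LSeries.convolution (fun n => F n * (Real.log n : ℂ) ^ i)
          (fun n => G n * (Real.log n : ℂ) ^ (j - i))) s := fun i =>
    (hF i).convolution (hG (j - i))
  have h4 : ∀ {n : ℕ}, n ≠ 0 → (∑ i ∈ range (j + 1), (Nat.choose j i : ℂ) •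
      (LSeries.convolution (fun n => F n * (Real.log n : ℂ) ^ i)
        (fun n => G n * (Real.log n : ℂ) ^ (j - i)))) n = cv F G n * (Real.log n : ℂ) ^ j := by
    intro n hn
    unfold cv
    rw [MBX_pt F G j n hn]
    simp only [Finset.sum_apply, Pi.smul_apply, LSeries.convolution_def, smul_eq_mul]
  constructor
  · have h5 := LSeriesSummable.sum (fun i (_ : i ∈ range (j + 1)) => (h2 i).smul (Nat.choose j i : ℂ))
    exact (LSeriesSummable_congr s (fun {n} hn => h4 hn)).mp h5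
  · have h3 : ∀ i ∈ range (j + 1), (Nat.choose j i : ℂ) * DF F i s * DF G (j - i) s
        = LSeries ((Nat.choose j i : ℂ) • (LSeries.convolution (fun n => F n * (Real.log n : ℂ) ^ i)
            (fun n => G n * (Real.log n : ℂ) ^ (j - i)))) s := by
      intro i _
      rw [LSeries_smul, ← h1, mul_assoc]
    rw [Finset.sum_congr rfl h3, ← LSeries_sum (fun i _ => (h2 i).smul _)]
    unfold DF
    exact LSeries_congr (fun {n} hn => (h4 hn).symm) s

/-- the norm of an `L` series bounded by partial sums -/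
private theorem MBX_norm_le {f : ℕ → ℂ} {s : ℂ} (hs : 1 < s.re)
    (g : ℕ → ℝ) (hg : ∀ n : ℕ, n ≠ 0 → ‖f n‖ / n ≤ g n) (hg0 : 0 ≤ g 0) (B : ℝ)
    (hB : ∀ N : ℕ, ∑ n ∈ range N, g n ≤ B) : LSeriesSummable f s ∧ ‖LSeries f s‖ ≤ B := by
  have h0 : ∀ n, ‖LSeries.term f s n‖ ≤ g n := by
    intro n
    rw [LSeries.norm_term_eq]
    split_ifs with h0
    · rw [h0]; exact hg0
    · refine le_trans ?_ (hg n h0)
      have hn : (1 : ℝ) ≤ n := by exact_mod_cast Nat.one_le_iff_ne_zero.2 h0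
      apply div_le_div_of_nonneg_left (norm_nonneg _) (by linarith)
      calc (n : ℝ) = (n : ℝ) ^ (1 : ℝ) := (Real.rpow_one _).symm
        _ ≤ (n : ℝ) ^ s.re := Real.rpow_le_rpow_of_exponent_le hn hs.le
  have h2 : ∀ N : ℕ, ∑ n ∈ range N, ‖LSeries.term f s n‖ ≤ B := fun N =>
    (Finset.sum_le_sum fun n _ => h0 n).trans (hB N)
  have h1 : Summable fun n => ‖LSeries.term f s n‖ := summable_of_sum_range_le (fun n => norm_nonneg _) h2
  refine ⟨h1.of_norm, (norm_tsum_le_tsum_norm h1).trans ?_⟩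
  exact Real.tsum_le_of_sum_range_le (fun n => norm_nonneg _) h2

/-- the series of the smooth factor -/
private theorem MBX_H (H : ℕ → ℂ) (hH0 : H 0 = 0) (D B : ℝ) (hD : 1 ≤ D)
    (hB : ∀ E : ℕ, ∑ e ∈ Ioc 0 E, ‖H e‖ * (e : ℝ) ^ (1 / D) / e ≤ B) (i : ℕ) (s : ℂ) (hs : 1 < s.re) :
    LSeriesSummable (fun n => H n * (Real.log n : ℂ) ^ i) s ∧ ‖DF H i s‖ ≤ i.factorial * D ^ i * B := by
  have hD0 : 0 < D := by linarith
  refine MBX_norm_le hs (fun n => (i.factorial * D ^ i) * (‖H n‖ * (n : ℝ) ^ (1 / D) / n)) ?_ (by positivity) _ ?_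
  · intro n hn
    have hn0 : (0 : ℝ) < n := by exact_mod_cast Nat.pos_of_ne_zero hn
    have h2 : Real.log n ^ i ≤ i.factorial * D ^ i * (n : ℝ) ^ (1 / D) := by
      have h3 := Real.pow_div_factorial_le_exp (Real.log n / D)
        (div_nonneg (Real.log_natCast_nonneg n) (by linarith)) i
      rw [div_le_iff₀ (by positivity), div_pow, div_le_iff₀ (by positivity)] at h3
      refine h3.trans (le_of_eq ?_)
      rw [Real.rpow_def_of_pos hn0]
      rw [show Real.log n * (1 / D) = Real.log n / D by ring]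
      ring
    rw [norm_mul, norm_pow, Complex.norm_real, Real.norm_of_nonneg (Real.log_natCast_nonneg n)]
    calc ‖H n‖ * Real.log n ^ i / n ≤ ‖H n‖ * (i.factorial * D ^ i * (n : ℝ) ^ (1 / D)) / n :=
          div_le_div_of_nonneg_right (mul_le_mul_of_nonneg_left h2 (norm_nonneg _)) hn0.le
      _ = _ := by ring
  · intro N
    rw [← Finset.mul_sum]
    refine mul_le_mul_of_nonneg_left ?_ (by positivity)
    refine le_trans ?_ (hB N)
    have h1 : ∑ n ∈ range N, ‖H n‖ * (n : ℝ) ^ (1 / D) / n =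
        ∑ n ∈ (range N).filter (fun n => n ≠ 0), ‖H n‖ * (n : ℝ) ^ (1 / D) / n := by
      rw [Finset.sum_filter_of_ne]
      intro n _ hn h0
      apply hn
      rw [h0, hH0, norm_zero, zero_mul, zero_div]
    rw [h1]
    refine Finset.sum_le_sum_of_subset_of_nonneg ?_ fun n _ _ => by positivity
    intro n hn
    rw [Finset.mem_filter, Finset.mem_range] at hn
    rw [Finset.mem_Ioc]
    omega

private theorem MBX_asym (M : ℝ) (E : ℕ) : ∃ x₀ : ℝ, ∀ x : ℝ, x₀ ≤ x →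
    Real.exp 1 ≤ x ∧ 1 ≤ CH.dl x ∧ 0 ≤ ll2 x ∧ M * ll2 x ^ E + M ≤ CH.dl x := by
  have h1 : Filter.Tendsto Real.log Filter.atTop Filter.atTop := Real.tendsto_log_atTop
  have h2 : (fun t : ℝ => Real.log t ^ E) =o[Filter.atTop] fun t : ℝ => t ^ (19 / 20 : ℝ) :=
    (isLittleO_log_rpow_rpow_atTop (E : ℝ) (by norm_num)).congr_left fun t =>
      Real.rpow_natCast _ _
  have h3 : ∀ᶠ t : ℝ in Filter.atTop, M * Real.log t ^ E ≤ 1 / 2 * t ^ (19 / 20 : ℝ) := by
    have h4 := h2.bound (show (0 : ℝ) < 1 / (2 * (|M| + 1)) by positivity)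
    filter_upwards [h4, Filter.eventually_ge_atTop (1 : ℝ)] with t ht ht1
    have hlt : 0 ≤ Real.log t := Real.log_nonneg ht1
    rw [Real.norm_of_nonneg (by positivity), Real.norm_of_nonneg (by positivity)] at ht
    have h5 : M * Real.log t ^ E ≤ (|M| + 1) * Real.log t ^ E :=
      mul_le_mul_of_nonneg_right (by have := le_abs_self M; linarith) (by positivity)
    have h6 := mul_le_mul_of_nonneg_left ht (by positivity : 0 ≤ |M| + 1)
    have h7 : (|M| + 1) * (1 / (2 * (|M| + 1)) * t ^ (19 / 20 : ℝ)) = 1 / 2 * t ^ (19 / 20 : ℝ) := by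
      field_simp
    linarith
  have h4 : ∀ᶠ t : ℝ in Filter.atTop, 2 * |M| + 1 ≤ t ^ (19 / 20 : ℝ) :=
    (tendsto_rpow_atTop (by norm_num : (0 : ℝ) < 19 / 20)).eventually_ge_atTop _
  have h5 : ∀ᶠ x : ℝ in Filter.atTop, Real.exp 1 ≤ x ∧ 1 ≤ CH.dl x ∧ 0 ≤ ll2 x ∧
      M * ll2 x ^ E + M ≤ CH.dl x := by
    filter_upwards [h1.eventually h3, h1.eventually h4,
      h1.eventually (Filter.eventually_ge_atTop (1 : ℝ)),
      Filter.eventually_ge_atTop (Real.exp 1)] with x hx3 hx4 hx5 hx6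
    refine ⟨hx6, ?_, ?_, ?_⟩
    · unfold CH.dl
      have := abs_nonneg M
      linarith
    · unfold ll2
      exact Real.log_nonneg hx5
    · unfold CH.dl ll2
      have := le_abs_self M
      linarith
  obtain ⟨x₀, hx₀⟩ := Filter.eventually_atTop.1 h5
  exact ⟨x₀, fun x hx => hx₀ x hx⟩

private theorem MBX_rg (y : ℝ) (g : ℕ → ℂ) (hg : CM g) (n : ℕ) : ‖mg (rg y g) n‖ ≤ 1 := by
  unfold mg
  rw [norm_mul]
  have h1 : ‖((ArithmeticFunction.moebius n : ℤ) : ℂ)‖ ≤ 1 := by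
    rw [Complex.norm_intCast]
    exact_mod_cast ArithmeticFunction.abs_moebius_le_one
  have h2 : ‖rg y g n‖ ≤ 1 := by
    unfold rg
    split_ifs
    · exact hg.2.2.2 n
    · rw [norm_zero]; exact zero_le_one
  calc _ ≤ 1 * 1 := mul_le_mul h1 h2 (norm_nonneg _) zero_le_one
    _ = 1 := one_mul 1

theorem MBX (hRMX : RMX_stmt) (hHSF : HSF_stmt) : MBX_stmt := by
  intro J
  obtain ⟨A₁, E, x₁, hR⟩ := hRMX J
  obtain ⟨hfac, C, hC, hsm⟩ := hHSF
  set C₂ : ℝ := 2 ^ J * J.factorial * (64 * C) with hC₂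
  have hC₂0 : 0 ≤ C₂ := by positivity
  obtain ⟨x₂, hx₂⟩ := MBX_asym C₂ E
  refine ⟨A₁, max x₁ x₂, ?_⟩
  intro x hx R k₁ k₂ g₁ g₂ h₁ h₂ hD σ τ hσ hσ2 hτ j hj
  have hR' := hR x ((le_max_left _ _).trans hx) R k₁ k₂ g₁ g₂ h₁ h₂ hD σ τ hσ hσ2 hτ
  obtain ⟨hex, hdl, hll, hM⟩ := hx₂ x ((le_max_right _ _).trans hx)
  obtain ⟨-, -, hg₁, hg₂, -⟩ := hD
  have hx0 : 0 < x := lt_of_lt_of_le (Real.exp_pos _) hex
  have hlogx : 1 ≤ Real.log x := by
    rw [Real.le_log_iff_exp_le hx0]; exact hex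
  obtain ⟨s, hs⟩ : ∃ s : ℂ, s = (σ : ℂ) + τ * Complex.I := ⟨_, rfl⟩
  have hsre' : s.re = σ := by
    rw [hs]
    simp
  have hsre : 1 < s.re := by
    rw [hsre']
    have h3 : 0 < 1 / Real.log x := by positivity
    linarith
  rw [← hs] at hR' ⊢
  have hy : 2 ≤ yx x := by
    unfold yx
    have h1 := Real.add_one_le_exp (CH.dl x)
    linarith
  have hlogy : Real.log (yx x) = CH.dl x := Real.log_exp _
  have hdl0 : 0 ≤ CH.dl x := by linarith
  obtain ⟨D, hDd⟩ : ∃ D : ℝ, D = CH.dl x := ⟨_, rfl⟩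
  have hsum : ∀ N : ℕ, ∑ e ∈ Ioc 0 N, ‖BP.hs (yx x) g₁ g₂ e‖ * (e : ℝ) ^ (1 / D) / e ≤ C * (1 + D) ^ 6 := by
    intro N
    have h1 := hsm (yx x) g₁ g₂ hy hg₁ hg₂ N
    rw [hlogy] at h1
    rw [hDd]
    exact h1
  rw [← hDd] at hdl hdl0 hM hR' ⊢
  have hH0 : BP.hs (yx x) g₁ g₂ 0 = 0 := by
    unfold BP.hs cv
    rw [Nat.divisorsAntidiagonal_zero, sum_empty]
  have hH := fun i => MBX_H (BP.hs (yx x) g₁ g₂) hH0 D (C * (1 + D) ^ 6) hdl hsum i s hsre
  have ha := fun i => MBX_DF (mg (rg (yx x) g₁)) (mg (rg (yx x) g₂)) s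
    (fun i => MBX_s1 _ (MBX_rg _ _ hg₁) i hsre) (fun i => MBX_s1 _ (MBX_rg _ _ hg₂) i hsre) i
  have hprod := (MBX_DF (BP.hs (yx x) g₁ g₂) (cv (mg (rg (yx x) g₁)) (mg (rg (yx x) g₂))) s
    (fun i => (hH i).1) (fun i => (ha i).1) j).2
  have heq : DF (cv (mg g₁) (mg g₂)) j s =
      DF (cv (BP.hs (yx x) g₁ g₂) (cv (mg (rg (yx x) g₁)) (mg (rg (yx x) g₂)))) j s := by
    unfold DF
    refine LSeries_congr (fun {n} hn => ?_) s
    rw [(hfac (yx x) g₁ g₂ hg₁ hg₂ n (Nat.one_le_iff_ne_zero.2 hn)).2]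
  rw [heq, hprod]
  have hllE : 0 ≤ ll2 x ^ E := pow_nonneg hll E
  have h2 : ∀ i ∈ range (j + 1), ‖(Nat.choose j i : ℂ) * DF (BP.hs (yx x) g₁ g₂) i s *
      DF (cv (mg (rg (yx x) g₁)) (mg (rg (yx x) g₂))) (j - i) s‖ ≤
      (Nat.choose j i : ℝ) * (J.factorial * (64 * C) * (D ^ (j + 6) * ll2 x ^ E)) := by
    intro i hi
    have hij : i ≤ j := by have := Finset.mem_range.1 hi; omega
    rw [norm_mul, norm_mul, Complex.norm_natCast, mul_assoc]
    apply mul_le_mul_of_nonneg_left _ (Nat.cast_nonneg _)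
    have h3 := hR' (j - i) (by omega)
    have h4 := (hH i).2
    have h5 : (i.factorial : ℝ) ≤ (J.factorial : ℝ) := by
      exact_mod_cast Nat.factorial_le (by omega)
    have h6 : (1 + D) ^ 6 ≤ 64 * D ^ 6 := by
      calc (1 + D) ^ 6 ≤ (2 * D) ^ 6 := pow_le_pow_left₀ (by linarith) (by linarith) 6
        _ = 64 * D ^ 6 := by ring
    calc ‖DF (BP.hs (yx x) g₁ g₂) i s‖ * ‖DF (cv (mg (rg (yx x) g₁)) (mg (rg (yx x) g₂))) (j - i) s‖
        ≤ (i.factorial * D ^ i * (C * (1 + D) ^ 6)) * (D ^ (j - i) * ll2 x ^ E) :=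
          mul_le_mul h4 h3 (norm_nonneg _) (by positivity)
      _ ≤ (J.factorial * D ^ i * (C * (64 * D ^ 6))) * (D ^ (j - i) * ll2 x ^ E) := by
          apply mul_le_mul_of_nonneg_right _ (by positivity)
          apply mul_le_mul (mul_le_mul_of_nonneg_right h5 (by positivity)) _ (by positivity) (by positivity)
          exact mul_le_mul_of_nonneg_left h6 hC.le
      _ = J.factorial * (64 * C) * ((D ^ i * D ^ (j - i)) * D ^ 6 * ll2 x ^ E) := by ring
      _ = J.factorial * (64 * C) * (D ^ (j + 6) * ll2 x ^ E) := by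
          rw [← pow_add, ← pow_add, show i + (j - i) + 6 = j + 6 by omega]
  refine (norm_sum_le _ _).trans ((Finset.sum_le_sum h2).trans ?_)
  rw [← Finset.sum_mul]
  have h6 : ∑ i ∈ range (j + 1), (Nat.choose j i : ℝ) = 2 ^ j := by
    exact_mod_cast Nat.sum_range_choose j
  rw [h6]
  have h7 : (2 : ℝ) ^ j ≤ 2 ^ J := pow_le_pow_right₀ (by norm_num) hj
  have h8 : C₂ * ll2 x ^ E ≤ D := by linarith
  have h9 : D ≤ D ^ 2 := by nlinarith
  calc (2 : ℝ) ^ j * (J.factorial * (64 * C) * (D ^ (j + 6) * ll2 x ^ E))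
      ≤ 2 ^ J * (J.factorial * (64 * C) * (D ^ (j + 6) * ll2 x ^ E)) :=
        mul_le_mul_of_nonneg_right h7 (by positivity)
    _ = D ^ (j + 6) * (C₂ * ll2 x ^ E) := by rw [hC₂]; ring
    _ ≤ D ^ (j + 6) * D ^ 2 := mul_le_mul_of_nonneg_left (h8.trans h9) (by positivity)
    _ = D ^ (j + 8) := by ring

end Pool.Agent.YB
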